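import Pool.Agent.H10.BL.Stmts

/-!
# BL, row RN0: the rounding lemma
-/

set_option autoImplicit false

namespace Pool.BL

open Finset

namespace Rn22

lemma floor_spec {p : ℝ} (h0 : 0 < p) (h1 : p ≤ 1) :
    1 ≤ ⌊1 / p⌋₊ ∧ (⌊1 / p⌋₊ : ℝ) * p ≤ 1 ∧ 1 ≤ ((⌊1 / p⌋₊ : ℝ) + 1) * p := by
  have h2 : 1 ≤ 1 / p := by rwa [one_le_div h0]
  refine ⟨?_, ?_, ?_⟩
  · exact Nat.le_floor (by simpa using h2)
  · have := Nat.floor_le (a := 1 / p) (by positivity)
    rwa [le_div_iff₀ h0] at this
  · have := Nat.lt_floor_add_one (1 / p)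
    rw [div_lt_iff₀ h0] at this
    exact this.le

/-- bounds for `l = 1 / (k + 1)`, `k ≥ 2` -/
lemma lev_spec {p k : ℝ} (hk : 2 ≤ k) (h1 : k * p ≤ 1) (h2 : 1 ≤ (k + 1) * p) :
    1 / (k + 1) ≤ p ∧ p - 1 / (k + 1) ≤ 1 / k - 1 / (k + 1) ∧
      1 / k - 1 / (k + 1) ≤ 1 / (k + 1) / 2 ∧ 0 < 1 / (k + 1) ∧ 0 < 1 / k - 1 / (k + 1) := by
  have hk0 : 0 < k := by linarith
  have hk1 : 0 < k + 1 := by linarith
  have e : 1 / k - 1 / (k + 1) = 1 / (k + 1) / k := by
    field_simp
    ring
  refine ⟨?_, ?_, ?_, by positivity, ?_⟩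
  · rw [div_le_iff₀ hk1]; linarith
  · have : p ≤ 1 / k := by rw [le_div_iff₀ hk0]; linarith
    linarith
  · rw [e]
    exact div_le_div_of_nonneg_left (by positivity) (by norm_num) hk
  · rw [e]; positivity

end Rn22

open Rn22 in
theorem rn0_thm : S_RN0 := by
  intro ι _ _ p hp hx
  have hp1 : ∀ t, p t ≤ 1 := fun t =>
    (single_le_sum (fun i _ => (hp i).le) (mem_univ t)).trans hx
  obtain ⟨k, hkd⟩ : ∃ k : ι → ℕ, k = fun t => ⌊1 / p t⌋₊ := ⟨_, rfl⟩
  have hk : ∀ t, 1 ≤ k t ∧ (k t : ℝ) * p t ≤ 1 ∧ 1 ≤ ((k t : ℝ) + 1) * p t := by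
    intro t; rw [hkd]; exact floor_spec (hp t) (hp1 t)
  have hkr : ∀ t, (1 : ℝ) ≤ k t := fun t => by exact_mod_cast (hk t).1
  obtain ⟨x, hxd⟩ : ∃ x : ℝ, x = ∑ t, p t := ⟨_, rfl⟩
  rw [← hxd] at hx ⊢
  rcases le_or_gt x (1 / 2) with hA | hA
  · -- all moments of order `k`
    refine ⟨k, fun t => 1 / (k t : ℝ), fun _ => 0, ?_, ?_, ?_⟩
    · intro t
      have h0 : (0 : ℝ) < k t := by linarith [hkr t]
      refine ⟨(hk t).1, (hk t).2.1, (hk t).2.2, by positivity, le_rfl, ?_⟩
      rw [mul_one_div_cancel h0.ne']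
      simp
    · have h1 : ∀ t, 1 / (k t : ℝ) + 0 ≤ 2 * p t := by
        intro t
        have h0 : (0 : ℝ) < k t := by linarith [hkr t]
        rw [add_zero, div_le_iff₀ h0]
        have := (hk t).2.2
        nlinarith [mul_nonneg (sub_nonneg.mpr (hkr t)) (hp t).le]
      calc ∑ t, (1 / (k t : ℝ) + 0) ≤ ∑ t, 2 * p t := sum_le_sum fun t _ => h1 t
        _ = 2 * x := by rw [← mul_sum, hxd]
        _ ≤ 1 := by linarith
    · have h1 : ∑ t, ((k t : ℝ) * p t * (1 / (k t : ℝ)) + 0) = x := by
        rw [hxd]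
        refine sum_congr rfl fun t _ => ?_
        have h0 : (k t : ℝ) ≠ 0 := by linarith [hkr t]
        field_simp
        ring
      rw [h1]
      exact min_le_left _ _
  · have hmin : min x (x / 2 + 1 / 4) ≤ x / 2 + 1 / 4 := min_le_right _ _
    by_cases hB : ∀ t, p t ≤ 1 / 2
    · -- all `p ≤ 1 / 2`
      have hk2 : ∀ t, (2 : ℝ) ≤ k t := by
        intro t
        by_contra hlt
        push Not at hlt
        have h3 : k t < 2 := by exact_mod_cast hlt
        have h4 : k t = 1 := by have := (hk t).1; omega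
        have h5 := floor_spec (hp t) (hp1 t)
        have h6 : k t = ⌊1 / p t⌋₊ := by rw [hkd]
        have h7 : 2 ≤ ⌊1 / p t⌋₊ := by
          refine Nat.le_floor ?_
          rw [le_div_iff₀ (hp t)]
          have := hB t
          push_cast
          linarith
        omega
      have hs := fun t => lev_spec (hk2 t) (hk t).2.1 (hk t).2.2
      obtain ⟨L, hL⟩ : ∃ L : ℝ, L = ∑ t, 1 / ((k t : ℝ) + 1) := ⟨_, rfl⟩
      obtain ⟨D, hD⟩ : ∃ D : ℝ, D = ∑ t, (p t - 1 / ((k t : ℝ) + 1)) := ⟨_, rfl⟩
      obtain ⟨M, hM⟩ : ∃ M : ℝ, M = ∑ t, (1 / (k t : ℝ) - 1 / ((k t : ℝ) + 1)) := ⟨_, rfl⟩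
      have hxLD : x = L + D := by
        rw [hxd, hL, hD, ← sum_add_distrib]
        exact sum_congr rfl fun t _ => by ring
      have hL0 : 0 ≤ L := by rw [hL]; exact sum_nonneg fun t _ => (hs t).2.2.2.1.le
      have hD0 : 0 ≤ D := by
        rw [hD]; exact sum_nonneg fun t _ => by linarith [(hs t).1]
      have hDM : D ≤ M := by
        rw [hD, hM]; exact sum_le_sum fun t _ => (hs t).2.1
      have hML : M ≤ L / 2 := by
        rw [hM, hL, sum_div]; exact sum_le_sum fun t _ => (hs t).2.2.1
      -- the parameter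
      obtain ⟨φ, hφ0, hφ1, hφw, hφv⟩ : ∃ φ : ℝ, 0 ≤ φ ∧ φ ≤ 1 ∧ L + φ * M ≤ 1 ∧
          x / 2 + 1 / 4 ≤ L + φ * D := by
        rcases le_or_gt (L + M) 1 with h1 | h1
        · exact ⟨1, zero_le_one, le_rfl, by linarith, by linarith⟩
        · have hM0 : 0 < M := by linarith
          have hL1 : L ≤ 1 := by linarith
          have h3 : (1 - L) / M * M = 1 - L := div_mul_cancel₀ _ hM0.ne'
          have h4 : 0 ≤ (1 - L) / M := div_nonneg (by linarith) hM0.le
          refine ⟨(1 - L) / M, h4, ?_, by rw [h3]; linarith, ?_⟩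
          · rw [div_le_one hM0]; linarith
          · rw [hxLD]
            generalize (1 - L) / M = φ at h3 h4
            rcases le_or_gt (1 / 2) φ with h5 | h5
            · nlinarith [mul_nonneg (sub_nonneg.mpr h5) hD0]
            · -- `D ≤ L / 2`, `φ L / 2 ≥ 1 - L`
              have h6 : 1 - L ≤ φ * (L / 2) := by
                rw [← h3]; exact mul_le_mul_of_nonneg_left hML h4
              have h7 : D * (1 / 2 - φ) ≤ L / 2 * (1 / 2 - φ) :=
                mul_le_mul_of_nonneg_right (hDM.trans hML) (by linarith)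
              nlinarith
      refine ⟨k, fun t => φ * (1 / (k t : ℝ)), fun t => (1 - φ) * (1 / ((k t : ℝ) + 1)),
        ?_, ?_, ?_⟩
      · intro t
        have h0 : (0 : ℝ) < k t := by linarith [hkr t]
        have h1 : (0 : ℝ) < k t + 1 := by linarith
        refine ⟨(hk t).1, (hk t).2.1, (hk t).2.2, by positivity,
          mul_nonneg (by linarith) (by positivity), ?_⟩
        have e : (k t : ℝ) * (φ * (1 / (k t : ℝ))) +
            ((k t : ℝ) + 1) * ((1 - φ) * (1 / ((k t : ℝ) + 1))) = 1 := by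
          field_simp
          ring
        rw [e]
      · have e : ∑ t, (φ * (1 / (k t : ℝ)) + (1 - φ) * (1 / ((k t : ℝ) + 1))) = L + φ * M := by
          rw [hL, hM, mul_sum, ← sum_add_distrib]
          exact sum_congr rfl fun t _ => by ring
        rw [e]
        exact hφw
      · have e : ∑ t, ((k t : ℝ) * p t * (φ * (1 / (k t : ℝ))) +
            (1 - φ) * (1 / ((k t : ℝ) + 1))) = L + φ * D := by
          rw [hL, hD, mul_sum, ← sum_add_distrib]
          refine sum_congr rfl fun t _ => ?_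
          have h0 : (k t : ℝ) ≠ 0 := by linarith [hkr t]
          have h1 : (k t : ℝ) * p t * (φ * (1 / (k t : ℝ))) = φ * p t := by
            field_simp
          rw [h1]
          ring
        rw [e]
        linarith
    · -- one `p > 1 / 2`
      push Not at hB
      obtain ⟨a, ha⟩ := hB
      have hsplit : ∀ f : ι → ℝ, ∑ t, f t = f a + ∑ t ∈ univ.erase a, f t := fun f =>
        (add_sum_erase univ f (mem_univ a)).symm
      have hxa : x = p a + ∑ t ∈ univ.erase a, p t := by rw [hxd]; exact hsplit p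
      have hka : k a = 1 := by
        have h1 := (hk a).2.1
        have h2 : (k a : ℝ) < 2 := by nlinarith [hkr a]
        have h3 : k a < 2 := by exact_mod_cast h2
        have := (hk a).1
        omega
      have hle : ∀ t ∈ univ.erase a, p t ≤ 1 / 2 := by
        intro t ht
        have : p t ≤ ∑ t ∈ univ.erase a, p t := single_le_sum (fun i _ => (hp i).le) ht
        linarith
      have hk2 : ∀ t ∈ univ.erase a, (2 : ℝ) ≤ k t := by
        intro t ht
        have h7 : 2 ≤ ⌊1 / p t⌋₊ := by
          refine Nat.le_floor ?_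
          rw [le_div_iff₀ (hp t)]
          have := hle t ht
          push_cast
          linarith
        have h6 : k t = ⌊1 / p t⌋₊ := by rw [hkd]
        rw [h6]
        exact_mod_cast h7
      have hs := fun t ht => lev_spec (hk2 t ht) (hk t).2.1 (hk t).2.2
      obtain ⟨L, hL⟩ : ∃ L : ℝ, L = ∑ t ∈ univ.erase a, 1 / ((k t : ℝ) + 1) := ⟨_, rfl⟩
      obtain ⟨D, hD⟩ : ∃ D : ℝ, D = ∑ t ∈ univ.erase a, (p t - 1 / ((k t : ℝ) + 1)) := ⟨_, rfl⟩
      have hxLD : x = p a + (L + D) := by
        rw [hxa, hL, hD, ← sum_add_distrib]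
        congr 1
        exact sum_congr rfl fun t _ => by ring
      have hL0 : 0 ≤ L := by rw [hL]; exact sum_nonneg fun t ht => (hs t ht).2.2.2.1.le
      have hD0 : 0 ≤ D := by
        rw [hD]; exact sum_nonneg fun t ht => by linarith [(hs t ht).1]
      have hDL : D ≤ L / 2 := by
        rw [hD, hL, sum_div]
        exact sum_le_sum fun t ht => (hs t ht).2.1.trans (hs t ht).2.2.1
      have hL2 : L < 1 / 2 := by linarith
      refine ⟨k, fun t => if t = a then 1 - 2 * L else 0,
        fun t => if t = a then L else 1 / ((k t : ℝ) + 1), ?_, ?_, ?_⟩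
      · intro t
        refine ⟨(hk t).1, (hk t).2.1, (hk t).2.2, ?_, ?_, ?_⟩
        · dsimp only
          split_ifs <;> linarith
        · dsimp only
          split_ifs
          · exact hL0
          · positivity
        · dsimp only
          have h1 : (0 : ℝ) < k t + 1 := by linarith [hkr t]
          split_ifs with h
          · rw [h, hka]
            push_cast
            linarith
          · rw [mul_one_div_cancel h1.ne']
            simp
      · rw [hsplit]
        have e : ∑ t ∈ univ.erase a, ((if t = a then 1 - 2 * L else 0) +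
            (if t = a then L else 1 / ((k t : ℝ) + 1))) = L := by
          rw [hL]
          refine sum_congr rfl fun t ht => ?_
          have hta : t ≠ a := ne_of_mem_erase ht
          rw [if_neg hta, if_neg hta, zero_add]
        rw [e]
        simp only [if_true]
        linarith
      · rw [hsplit]
        have e : ∑ t ∈ univ.erase a, ((k t : ℝ) * p t * (if t = a then 1 - 2 * L else 0) +
            (if t = a then L else 1 / ((k t : ℝ) + 1))) = L := by
          rw [hL]
          refine sum_congr rfl fun t ht => ?_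
          have hta : t ≠ a := ne_of_mem_erase ht
          rw [if_neg hta, if_neg hta, mul_zero, zero_add]
        rw [e]
        simp only [if_true, hka]
        refine hmin.trans ?_
        push_cast
        rcases le_or_gt L (1 / 4) with h1 | h1
        · nlinarith [mul_nonneg (sub_nonneg.mpr h1) (sub_nonneg.mpr ha.le)]
        · have h2 : p a - 1 / 2 ≤ 1 / 2 - L - D := by linarith
          have h3 := mul_le_mul_of_nonneg_left h2 (by linarith : (0 : ℝ) ≤ 2 * L - 1 / 2)
          have h4 := mul_le_mul_of_nonneg_right hDL (by linarith : (0 : ℝ) ≤ 1 - 2 * L)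
          nlinarith [sq_nonneg (L - 1 / 4)]

end Pool.BL
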